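import Pool.Agent.Y761.CG.Bd

/-!
# CSZ: the leading critical point
-/

set_option autoImplicit false

namespace Pool.Agent.Y761.CG

open Pool.Agent.W711.HT Pool.Agent.Y472
open MeasureTheory
open scoped Real

lemma tanh_mono : Monotone Real.tanh := by
  intro x y hxy
  rw [Real.tanh_eq_sinh_div_cosh, Real.tanh_eq_sinh_div_cosh,
    div_le_div_iff₀ (Real.cosh_pos x) (Real.cosh_pos y)]
  have h := Real.sinh_sub y x
  have h2 : 0 ≤ Real.sinh (y - x) := Real.sinh_nonneg_iff.2 (by linarith)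
  linarith

lemma sinh_le_one {η : ℝ} (h : Real.sinh η ≤ 1) : η ≤ 8825 / 10000 := by
  have h1 := Real.arsinh_le_arsinh.2 h
  rw [Real.arsinh_sinh] at h1
  exact h1.trans arsinh_one_bd.2

/-- the solution of the two real equations -/
lemma sol (k m : ℕ) (hk : 1 ≤ k) (hm : 1 ≤ m) : ∃ ξ η : ℝ, 0 ≤ ξ ∧ ξ ≤ π / 4 ∧ 0 < η ∧
    0 ≤ (π / 2 - m * ξ) / k ∧ (π / 2 - m * ξ) / k ≤ π / 4 ∧
    Real.sinh η = Real.tan ((π / 2 - m * ξ) / k) * Real.cos ξ ∧
    Real.sin ξ = Real.tanh (m * η / k) * Real.cosh η := by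
  have hπ := Real.pi_pos
  have hk0 : (1 : ℝ) ≤ k := by exact_mod_cast hk
  have hm0 : (1 : ℝ) ≤ m := by exact_mod_cast hm
  have hkp : (0 : ℝ) < k := by linarith
  have hmp : (0 : ℝ) < m := by linarith
  -- the left end
  obtain ⟨a, ha0, ha1, haQ, haF⟩ : ∃ a : ℝ, 0 ≤ a ∧ a ≤ π / (2 * m) ∧
      (π / 2 - m * a) / k ≤ π / 4 ∧
      Real.sin a ≤ Real.tanh (m * Real.arsinh (Real.tan ((π / 2 - m * a) / k) * Real.cos a) / k) *
        Real.cosh (Real.arsinh (Real.tan ((π / 2 - m * a) / k) * Real.cos a)) := by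
    by_cases h1 : k = 1
    · subst h1
      refine ⟨π / (4 * m), by positivity, ?_, ?_, ?_⟩
      · exact div_le_div_of_nonneg_left hπ.le (by positivity) (by nlinarith)
      · have : (m : ℝ) * (π / (4 * m)) = π / 4 := by field_simp
        rw [this]
        simp only [Nat.cast_one, div_one]
        linarith
      · have e1 : (m : ℝ) * (π / (4 * m)) = π / 4 := by field_simp
        have e2 : (π / 2 - (m : ℝ) * (π / (4 * m))) / ((1 : ℕ) : ℝ) = π / 4 := by
          rw [e1]; simp only [Nat.cast_one, div_one]; ring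
        rw [e2, Real.tan_pi_div_four, one_mul]
        simp only [Nat.cast_one, div_one]
        set x := π / (4 * (m : ℝ)) with hx
        have hx0 : 0 < x := by positivity
        have hx1 : x ≤ π / 4 := div_le_div_of_nonneg_left hπ.le (by positivity) (by nlinarith)
        have hc : Real.cos (π / 4) ≤ Real.cos x :=
          Real.cos_le_cos_of_nonneg_of_le_pi hx0.le (by linarith) hx1
        have hs : Real.sin x ≤ Real.sin (π / 4) :=
          Real.sin_le_sin_of_le_of_le_pi_div_two (by linarith) (by linarith) hx1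
        rw [Real.cos_pi_div_four] at hc
        rw [Real.sin_pi_div_four] at hs
        have hcp : 0 ≤ Real.cos x := le_trans (by positivity) hc
        have hy : 0 ≤ Real.arsinh (Real.cos x) := Real.arsinh_nonneg_iff.2 hcp
        have h3 : Real.tanh (Real.arsinh (Real.cos x)) ≤
            Real.tanh (m * Real.arsinh (Real.cos x)) := by
          refine tanh_mono ?_
          nlinarith
        have h4 : Real.tanh (Real.arsinh (Real.cos x)) * Real.cosh (Real.arsinh (Real.cos x)) =
            Real.cos x := by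
          rw [Real.tanh_eq_sinh_div_cosh, div_mul_cancel₀ _ (Real.cosh_pos _).ne',
            Real.sinh_arsinh]
        have h5 := mul_le_mul_of_nonneg_right h3 (Real.cosh_pos (Real.arsinh (Real.cos x))).le
        linarith
    · have hk2 : (2 : ℝ) ≤ k := by
        have : 2 ≤ k := by omega
        exact_mod_cast this
      refine ⟨0, le_rfl, by positivity, ?_, ?_⟩
      · rw [mul_zero, sub_zero, div_div]
        exact div_le_div_of_nonneg_left hπ.le (by norm_num) (by linarith)
      · simp only [mul_zero, sub_zero, Real.sin_zero, Real.cos_zero, mul_one]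
        have h2 : 0 ≤ Real.tan (π / 2 / k) := by
          refine Real.tan_nonneg_of_nonneg_of_le_pi_div_two (by positivity) ?_
          exact div_le_self (by positivity) hk0
        have h3 : 0 ≤ Real.arsinh (Real.tan (π / 2 / k)) := Real.arsinh_nonneg_iff.2 h2
        have h4 : 0 ≤ Real.tanh (m * Real.arsinh (Real.tan (π / 2 / k)) / k) := by
          rw [Real.tanh_eq_sinh_div_cosh]
          exact div_nonneg (Real.sinh_nonneg_iff.2 (by positivity)) (Real.cosh_pos _).le
        exact mul_nonneg h4 (Real.cosh_pos _).le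
  -- intermediate value
  set b := π / (2 * (m : ℝ)) with hb
  have hmb : (m : ℝ) * b = π / 2 := by rw [hb]; field_simp
  have hQr : ∀ x ∈ Set.Icc a b, 0 ≤ (π / 2 - m * x) / k ∧ (π / 2 - m * x) / k ≤ π / 4 := by
    intro x hx
    constructor
    · refine div_nonneg ?_ hkp.le
      have : (m : ℝ) * x ≤ m * b := by gcongr; exact hx.2
      linarith
    · refine le_trans ?_ haQ
      have : (m : ℝ) * a ≤ m * x := by gcongr; exact hx.1
      gcongr
  set F : ℝ → ℝ := fun x => Real.tanh (m * Real.arsinh (Real.tan ((π / 2 - m * x) / k) *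
    Real.cos x) / k) * Real.cosh (Real.arsinh (Real.tan ((π / 2 - m * x) / k) * Real.cos x)) -
    Real.sin x with hF
  have htan : ContinuousOn (fun x : ℝ => Real.tan ((π / 2 - m * x) / k)) (Set.Icc a b) := by
    intro x hx
    have h1 := hQr x hx
    have hc : Real.cos ((π / 2 - m * x) / k) ≠ 0 :=
      (Real.cos_pos_of_mem_Ioo ⟨by linarith [h1.1], by linarith [h1.2]⟩).ne'
    have h2 := (Real.continuousAt_tan.2 hc)
    have h3 : ContinuousAt (fun x : ℝ => (π / 2 - m * x) / k) x := by fun_prop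
    exact (ContinuousAt.comp (f := fun x : ℝ => (π / 2 - m * x) / k) (g := Real.tan)
      h2 h3).continuousWithinAt
  have hη : ContinuousOn (fun x : ℝ => Real.arsinh (Real.tan ((π / 2 - m * x) / k) * Real.cos x))
      (Set.Icc a b) :=
    Real.continuous_arsinh.comp_continuousOn (htan.mul Real.continuous_cos.continuousOn)
  have hFc : ContinuousOn F (Set.Icc a b) := by
    have h1 : ContinuousOn (fun x : ℝ => Real.tanh (m * Real.arsinh
        (Real.tan ((π / 2 - m * x) / k) * Real.cos x) / k)) (Set.Icc a b) := by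
      have ht : Continuous Real.tanh := by
        have : Real.tanh = fun x => Real.sinh x / Real.cosh x :=
          funext fun x => Real.tanh_eq_sinh_div_cosh x
        rw [this]
        exact Real.continuous_sinh.div Real.continuous_cosh fun x => (Real.cosh_pos x).ne'
      exact ht.comp_continuousOn ((continuousOn_const.mul hη).div_const _)
    exact (h1.mul (Real.continuous_cosh.comp_continuousOn hη)).sub
      Real.continuous_sin.continuousOn
  have hFa : 0 ≤ F a := by
    simp only [hF]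
    linarith
  have hb1 : b ≤ π / 2 := by
    rw [hb]
    exact div_le_div_of_nonneg_left hπ.le (by norm_num) (by linarith)
  have hb0 : 0 < b := by positivity
  have hFb : F b < 0 := by
    simp only [hF]
    rw [hmb, sub_self, zero_div, Real.tan_zero, zero_mul, Real.arsinh_zero, mul_zero, zero_div,
      Real.tanh_zero, zero_mul, zero_sub, neg_lt_zero]
    exact Real.sin_pos_of_pos_of_lt_pi hb0 (by linarith)
  obtain ⟨ξ, hξ, hξF⟩ := intermediate_value_Icc' ha1 hFc (Set.mem_Icc.2 ⟨hFb.le, hFa⟩)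
  have hξ0 : 0 ≤ ξ := ha0.trans hξ.1
  have hξb : ξ < b := by
    rcases lt_or_eq_of_le hξ.2 with h | h
    · exact h
    · exfalso
      rw [h] at hξF
      linarith
  obtain ⟨hQ0, hQ1⟩ := hQr ξ hξ
  have hQpos : 0 < (π / 2 - m * ξ) / k := by
    refine div_pos ?_ hkp
    have : (m : ℝ) * ξ < m * b := by gcongr
    linarith
  have hcξ : 0 < Real.cos ξ := Real.cos_pos_of_mem_Ioo ⟨by linarith, by linarith⟩
  have htp : 0 < Real.tan ((π / 2 - m * ξ) / k) :=
    Real.tan_pos_of_pos_of_lt_pi_div_two hQpos (by linarith)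
  have ht1 : Real.tan ((π / 2 - m * ξ) / k) ≤ 1 := by
    rw [← Real.tan_pi_div_four]
    exact Real.strictMonoOn_tan.monotoneOn ⟨by linarith, by linarith⟩ ⟨by linarith, by linarith⟩ hQ1
  set η := Real.arsinh (Real.tan ((π / 2 - m * ξ) / k) * Real.cos ξ) with hηd
  have hη0 : 0 < η := Real.arsinh_pos_iff.2 (mul_pos htp hcξ)
  have hs : Real.sinh η = Real.tan ((π / 2 - m * ξ) / k) * Real.cos ξ := Real.sinh_arsinh _
  have heq : Real.sin ξ = Real.tanh (m * η / k) * Real.cosh η := by
    have : F ξ = Real.tanh (m * η / k) * Real.cosh η - Real.sin ξ := rfl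
    rw [this] at hξF
    linarith
  refine ⟨ξ, η, hξ0, ?_, hη0, hQ0, hQ1, hs, heq⟩
  by_cases h1 : m = 1
  · subst h1
    by_contra hcon
    push Not at hcon
    have h2 : Real.sinh η ≤ Real.cos ξ := by
      rw [hs]; nlinarith
    have h3 : Real.cos ξ < Real.sin ξ := by
      have h4 : Real.cos ξ < Real.cos (π / 4) :=
        Real.cos_lt_cos_of_nonneg_of_le_pi_div_two (by linarith) (by linarith) hcon
      have h5 : Real.sin (π / 4) < Real.sin ξ :=
        Real.sin_lt_sin_of_lt_of_le_pi_div_two (by linarith) (by linarith) hcon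
      rw [Real.cos_pi_div_four] at h4
      rw [Real.sin_pi_div_four] at h5
      linarith
    have h6 : Real.tanh (((1 : ℕ) : ℝ) * η / k) ≤ Real.tanh η := by
      refine tanh_mono ?_
      rw [Nat.cast_one, one_mul]
      exact div_le_self hη0.le hk0
    have h7 : Real.tanh η * Real.cosh η = Real.sinh η := by
      rw [Real.tanh_eq_sinh_div_cosh, div_mul_cancel₀ _ (Real.cosh_pos _).ne']
    have h8 := mul_le_mul_of_nonneg_right h6 (Real.cosh_pos η).le
    linarith
  · have hm2 : (2 : ℝ) ≤ m := by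
      have : 2 ≤ m := by omega
      exact_mod_cast this
    have : b ≤ π / 4 := by
      rw [hb]
      exact div_le_div_of_nonneg_left hπ.le (by norm_num) (by linarith)
    linarith

lemma sol' (k m : ℕ) (hk : 1 ≤ k) (hkm : ¬ (k = 1 ∧ m = 0)) : ∃ ξ η : ℝ, 0 ≤ ξ ∧ ξ ≤ π / 4 ∧
    0 < η ∧ 0 ≤ (π / 2 - m * ξ) / k ∧ (π / 2 - m * ξ) / k ≤ π / 4 ∧
    Real.sinh η = Real.tan ((π / 2 - m * ξ) / k) * Real.cos ξ ∧
    Real.sin ξ = Real.tanh (m * η / k) * Real.cosh η := by
  by_cases hm : m = 0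
  · subst hm
    have hπ := Real.pi_pos
    have hk2 : (2 : ℝ) ≤ k := by
      have : 2 ≤ k := by omega
      exact_mod_cast this
    have h1 : π / 2 / k ≤ π / 4 := by
      rw [div_div]
      exact div_le_div_of_nonneg_left hπ.le (by norm_num) (by linarith)
    have h2 : 0 < Real.tan (π / 2 / k) :=
      Real.tan_pos_of_pos_of_lt_pi_div_two (by positivity) (by linarith)
    refine ⟨0, Real.arsinh (Real.tan (π / 2 / k)), le_rfl, by positivity,
      Real.arsinh_pos_iff.2 h2, ?_, ?_, ?_, ?_⟩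
    · simp only [CharP.cast_eq_zero, zero_mul, sub_zero]; positivity
    · simpa using h1
    · simp [Real.sinh_arsinh]
    · simp
  · exact sol k m hk (by omega)

theorem csz : S_CSZ := by
  intro H k m hk hm hkm
  obtain ⟨n, rfl⟩ := Int.eq_ofNat_of_zero_le hm
  have hkn : ¬ (k = 1 ∧ n = 0) := by
    rintro ⟨h1, h2⟩
    exact hkm ⟨h1, by simp [h2]⟩
  obtain ⟨ξ, η, hξ0, hξ1, hη0, hQ0, hQ1, hs, ht⟩ := sol' k n hk hkn
  have hπ := Real.pi_pos
  have hk0 : (1 : ℝ) ≤ k := by exact_mod_cast hk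
  have hkp : (0 : ℝ) < k := by linarith
  have hn0 : (0 : ℝ) ≤ n := Nat.cast_nonneg n
  have hcξ : 0 < Real.cos ξ := Real.cos_pos_of_mem_Ioo ⟨by linarith, by linarith⟩
  set Q := (π / 2 - n * ξ) / k with hQd
  set P := (n : ℝ) * η / k with hPd
  have htanQ : Real.tan Q ≤ 1 := by
    rw [← Real.tan_pi_div_four]
    exact Real.strictMonoOn_tan.monotoneOn ⟨by linarith, by linarith⟩ ⟨by linarith, by linarith⟩ hQ1
  have hQf : Qf ξ η = Q := by
    unfold Qf
    rw [hs, mul_div_assoc, div_self hcξ.ne', mul_one, Real.arctan_tan (by linarith) (by linarith)]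
  have hPf : Pf ξ η = P := by
    unfold Pf
    rw [ht, mul_div_assoc, div_self (Real.cosh_pos _).ne', mul_one, Real.artanh_tanh]
  have hgh := gh_eq (ξ := ξ) (η := η) (by linarith) (by linarith)
  rw [hQf, hPf] at hgh
  have hsc : Real.sinh η ≤ Real.cos ξ := by rw [hs]; nlinarith
  have hs1 : Real.sinh η ≤ 1 := hsc.trans (Real.cos_le_one ξ)
  have hη1 := sinh_le_one hs1
  have hkQ : k * Q = π / 2 - n * ξ := by rw [hQd]; field_simp
  have hkP : k * P = n * η := by rw [hPd]; field_simp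
  have hg1 : g ξ η = (s0 (pt ξ η)).re := rfl
  have hV : Vz k n (pt ξ η) = k * (2 * g ξ η - 4 / π * (η * Q)) := by
    unfold Vz
    rw [hg1]
    have e1 : Complex.I * ((n : ℤ) : ℂ) * pt ξ η ^ 2 / (2 * π) + Complex.I * pt ξ η =
        ((4 * n * ξ * η / π - 2 * η : ℝ) : ℂ) +
          ((n * (4 * ξ ^ 2 - 4 * η ^ 2) / (2 * π) - 2 * ξ : ℝ) : ℂ) * Complex.I := by
      unfold pt
      have hπc : (π : ℂ) ≠ 0 := by exact_mod_cast hπ.ne'
      push_cast
      field_simp
      have hI : Complex.I ^ 2 = -1 := Complex.I_sq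
      have hI3 : Complex.I ^ 3 = -Complex.I := by
        rw [pow_succ, hI]; ring
      ring_nf
      rw [hI3, hI]
      ring
    have e2 : (2 * (k : ℂ) * s0 (pt ξ η)).re = 2 * k * (s0 (pt ξ η)).re := by
      have : (2 * (k : ℂ) * s0 (pt ξ η)) = ((2 * k : ℝ) : ℂ) * s0 (pt ξ η) := by push_cast; ring
      rw [this, Complex.re_ofReal_mul]
    rw [Complex.add_re, e1, e2]
    simp only [Complex.add_re, Complex.ofReal_re, Complex.re_ofReal_mul, Complex.I_re, mul_zero,
      add_zero]
    have e3 : k * (4 / π * (η * Q)) = 4 / π * η * (π / 2 - n * ξ) := by rw [← hkQ]; ring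
    have e4 : (k : ℝ) * (2 * (s0 (pt ξ η)).re - 4 / π * (η * Q)) =
        2 * k * (s0 (pt ξ η)).re - k * (4 / π * (η * Q)) := by ring
    rw [e4, e3]
    field_simp
    ring
  refine ⟨pt ξ η, ⟨?_, ?_, ?_, ?_⟩, ?_, ?_, ?_, ?_⟩
  · rw [pt_re]; linarith
  · rw [pt_re]; linarith
  · rw [pt_im]; linarith
  · rw [pt_im]; linarith
  · rw [hgh]
    unfold pt
    have hπc : (π : ℂ) ≠ 0 := by exact_mod_cast hπ.ne'
    have e1 : (k : ℂ) * Q = π / 2 - n * ξ := by exact_mod_cast hkQ
    have e2 : (k : ℂ) * P = n * η := by exact_mod_cast hkP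
    have e3 : 2 * (k : ℂ) / π * (-(P : ℂ) + Q * Complex.I) =
        2 / π * (-(k * P) + (k * Q) * Complex.I) := by ring
    rw [e3, e1, e2]
    push_cast
    field_simp
    have hI : Complex.I ^ 2 = -1 := Complex.I_sq
    ring_nf
    rw [hI]
    ring
  · rw [hV]
    have h1 := K_ge H hξ0 hξ1
    set η1 := Real.arsinh (Real.cos ξ) with hη1d
    have h2 : η ≤ η1 := by
      have := Real.arsinh_le_arsinh.2 hsc
      rwa [Real.arsinh_sinh] at this
    have h3 := g_slope H (ξ := ξ) (η := η) (η1 := η1) (by linarith) (by linarith) h2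
      (le_of_eq (Real.sinh_arsinh _))
    have h4 : 4 / π * (η * Q) ≤ η := by
      have : 4 / π * (η * Q) ≤ 4 / π * (η * (π / 4)) := by gcongr
      have e : 4 / π * (η * (π / 4)) = η := by field_simp
      linarith
    have h5 : 317 / 200 ≤ 2 * g ξ η - 4 / π * (η * Q) := by linarith
    have := mul_le_mul_of_nonneg_left h5 hkp.le
    linarith
  · rw [hV, pt_im]
    have h1 := g_mono H (ξ := ξ) (η := η) (by linarith) (by linarith) hη0.le
    have h2 := g_ge H hξ0 hξ1
    have h3 := Pf_le (η := η) hξ0 hξ1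
    rw [hPf] at h3
    have h4 := bet_ge
    have hπ2 := Real.pi_lt_d4
    have hP0 : 0 ≤ P := by rw [hPd]; positivity
    -- the inequality divided by `2 k`
    have h5 : 2 * P * (1 / 3 - ξ / π) < g ξ η - bet := by
      have h6 : 0 ≤ 1 / 3 - ξ / π := by
        have : ξ / π ≤ 1 / 4 := by
          rw [div_le_iff₀ hπ]; linarith
        linarith
      have h7 : 2 * P * (1 / 3 - ξ / π) ≤ 2 * (3 / 2 * ξ) * (1 / 3 - ξ / π) := by gcongr
      have h8 : 2 * (3 / 2 * ξ) * (1 / 3 - ξ / π) = ξ - 3 * (ξ ^ 2 / π) := by field_simp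
      have h9 : 3 / (2 * π) * ξ ^ 2 = 3 / 2 * (ξ ^ 2 / π) := by field_simp
      have h10 : 0 ≤ ξ ^ 2 / π := by positivity
      have h11 : ξ ^ 2 / 3.1416 ≤ ξ ^ 2 / π := by gcongr
      have h12 : ξ ≤ 0.7854 := by linarith
      have h13 : ξ - 3 / 2 * (ξ ^ 2 / 3.1416) ≤ 0.55 := by
        have h14 : 0 ≤ (0.7854 - ξ) * (1 - 3 / 2 / 3.1416 * (0.7854 + ξ)) :=
          mul_nonneg (by linarith) (by linarith)
        have h15 : (0.7854 - ξ) * (1 - 3 / 2 / 3.1416 * (0.7854 + ξ)) =
          (0.7854 - 3 / 2 / 3.1416 * 0.7854 ^ 2) - (ξ - 3 / 2 * (ξ ^ 2 / 3.1416)) := by ring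
        have h16 : (0.7854 - 3 / 2 / 3.1416 * 0.7854 ^ 2 : ℝ) ≤ 0.55 := by norm_num
        linarith
      rw [h8] at h7
      rw [h9] at h2
      linarith
    have h6 : (k : ℝ) * (2 * P * (1 / 3 - ξ / π)) < k * (g ξ η - bet) := by gcongr
    have e1 : (k : ℝ) * (2 * P * (1 / 3 - ξ / π)) = 2 * (n * η) * (1 / 3 - ξ / π) := by
      rw [← hkP]; ring
    have e2 : (k : ℝ) * (4 / π * (η * Q)) = 4 / π * η * (π / 2 - n * ξ) := by rw [← hkQ]; ring
    have e3 : 4 / π * η * (π / 2 - n * ξ) = 2 * η - 4 * (n * η * (ξ / π)) := by field_simp; ring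
    have e4 : (k : ℝ) * (2 * g ξ η - 4 / π * (η * Q)) =
        2 * (k * g ξ η) - k * (4 / π * (η * Q)) := by ring
    rw [e4, e2, e3]
    rw [e1] at h6
    push_cast
    have e5 : 2 * ((n : ℝ) * η) * (1 / 3 - ξ / π) = 2 / 3 * (n * η) - 2 * (n * η * (ξ / π)) := by
      ring
    rw [e5] at h6
    have e6 : (2 * (n : ℝ) / 3 - 1) * (2 * η) = 4 / 3 * (n * η) - 2 * η := by ring
    have e7 : (k : ℝ) * (g ξ η - bet) = k * g ξ η - k * bet := by ring
    have e8 : 2 * (k : ℝ) * bet = 2 * (k * bet) := by ring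
    rw [e7] at h6
    rw [e6, e8]
    linarith
  · have h1 := g_mono H (ξ := ξ) (η := η) (by linarith) (by linarith) hη0.le
    have h2 := g_ge H hξ0 hξ1
    have h4 := bet_ge
    have h9 : 3 / (2 * π) * ξ ^ 2 ≤ 1 / 2 := by
      have hπ1 := Real.pi_gt_d4
      have hπ2 := Real.pi_lt_d4
      have : 3 / (2 * π) * ξ ^ 2 = 3 / 2 * ξ ^ 2 / π := by field_simp
      rw [this, div_le_iff₀ hπ]
      have h12 : ξ ≤ 0.7854 := by linarith
      nlinarith
    rw [← hg1]
    linarith

end Pool.Agent.Y761.CG
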