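import Pool.Agent.Y472.G.Defs

/-!
# Numerical bounds for the leading critical point
-/

set_option autoImplicit false

namespace Pool.Agent.Y761.CG

open Pool.Agent.W711.HT
open MeasureTheory
open scoped Real

lemma sin_ge3 {t : ℝ} (ht : 0 ≤ t) : t - t ^ 3 / 6 ≤ Real.sin t := by
  have hd : ∀ x : ℝ, HasDerivAt (fun t : ℝ => Real.sin t - (t - t ^ 3 / 6))
      (Real.cos x - (1 - x ^ 2 / 2)) x := by
    intro x
    have h := (Real.hasDerivAt_sin x).sub
      ((hasDerivAt_id x).sub (((hasDerivAt_id x).pow 3).div_const 6))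
    refine h.congr_deriv ?_
    simp only [id]
    norm_num
    ring
  have hm : MonotoneOn (fun t : ℝ => Real.sin t - (t - t ^ 3 / 6)) (Set.Ici 0) := by
    refine monotoneOn_of_deriv_nonneg (convex_Ici 0)
      (fun x _ => (hd x).continuousAt.continuousWithinAt)
      (fun x _ => (hd x).differentiableAt.differentiableWithinAt) ?_
    intro x _
    rw [(hd x).deriv]
    have := Real.one_sub_sq_div_two_le_cos (x := x)
    linarith
  have h := hm (Set.mem_Ici.2 le_rfl) (Set.mem_Ici.2 ht) ht
  simp only [Real.sin_zero] at h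
  linarith

lemma cos_le4 {t : ℝ} (ht : 0 ≤ t) : Real.cos t ≤ 1 - t ^ 2 / 2 + t ^ 4 / 24 := by
  have hd : ∀ x : ℝ, HasDerivAt (fun t : ℝ => 1 - t ^ 2 / 2 + t ^ 4 / 24 - Real.cos t)
      (Real.sin x - (x - x ^ 3 / 6)) x := by
    intro x
    have h := ((((hasDerivAt_id x).pow 2).div_const 2).const_sub 1).add
      (((hasDerivAt_id x).pow 4).div_const 24) |>.sub (Real.hasDerivAt_cos x)
    refine h.congr_deriv ?_
    simp only [id]
    norm_num
    ring
  have hm : MonotoneOn (fun t : ℝ => 1 - t ^ 2 / 2 + t ^ 4 / 24 - Real.cos t) (Set.Ici 0) := by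
    refine monotoneOn_of_deriv_nonneg (convex_Ici 0)
      (fun x _ => (hd x).continuousAt.continuousWithinAt)
      (fun x _ => (hd x).differentiableAt.differentiableWithinAt) ?_
    intro x hx
    rw [interior_Ici] at hx
    rw [(hd x).deriv]
    have := sin_ge3 (le_of_lt (Set.mem_Ioi.1 hx))
    linarith
  have h := hm (Set.mem_Ici.2 le_rfl) (Set.mem_Ici.2 ht) ht
  simp only [Real.cos_zero] at h
  norm_num at h
  linarith

lemma sin_le5 {t : ℝ} (ht : 0 ≤ t) : Real.sin t ≤ t - t ^ 3 / 6 + t ^ 5 / 120 := by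
  have hd : ∀ x : ℝ, HasDerivAt (fun t : ℝ => t - t ^ 3 / 6 + t ^ 5 / 120 - Real.sin t)
      (1 - x ^ 2 / 2 + x ^ 4 / 24 - Real.cos x) x := by
    intro x
    have h := ((hasDerivAt_id x).sub (((hasDerivAt_id x).pow 3).div_const 6)).add
      (((hasDerivAt_id x).pow 5).div_const 120) |>.sub (Real.hasDerivAt_sin x)
    refine h.congr_deriv ?_
    simp only [id]
    norm_num
    ring
  have hm : MonotoneOn (fun t : ℝ => t - t ^ 3 / 6 + t ^ 5 / 120 - Real.sin t) (Set.Ici 0) := by
    refine monotoneOn_of_deriv_nonneg (convex_Ici 0)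
      (fun x _ => (hd x).continuousAt.continuousWithinAt)
      (fun x _ => (hd x).differentiableAt.differentiableWithinAt) ?_
    intro x hx
    rw [interior_Ici] at hx
    rw [(hd x).deriv]
    have := cos_le4 (le_of_lt (Set.mem_Ioi.1 hx))
    linarith
  have h := hm (Set.mem_Ici.2 le_rfl) (Set.mem_Ici.2 ht) ht
  simp only [Real.sin_zero] at h
  norm_num at h
  linarith

lemma log_sin_le {t : ℝ} (h0 : 0 < t) (h1 : t ≤ π / 4) :
    Real.log (2 * Real.sin t) ≤ Real.log 2 + Real.log t - 161 / 1000 * t ^ 2 := by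
  have hπ := Real.pi_lt_d4
  have hs : 0 < Real.sin t := Real.sin_pos_of_pos_of_lt_pi h0 (by linarith [Real.pi_pos])
  have h5 := sin_le5 h0.le
  have ht1 : t ≤ 0.7854 := by linarith
  have ht2 : t ^ 2 ≤ 618 / 1000 := by nlinarith
  have h6 : Real.sin t ≤ t * (1 - 161 / 1000 * t ^ 2) := by
    have : t - t ^ 3 / 6 + t ^ 5 / 120 ≤ t * (1 - 161 / 1000 * t ^ 2) := by
      have e : t * (1 - 161 / 1000 * t ^ 2) - (t - t ^ 3 / 6 + t ^ 5 / 120) =
        t ^ 3 * (1 / 6 - 161 / 1000 - t ^ 2 / 120) := by ring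
      have : 0 ≤ t ^ 3 * (1 / 6 - 161 / 1000 - t ^ 2 / 120) :=
        mul_nonneg (by positivity) (by linarith)
      linarith
    linarith
  have h7 : 0 < 1 - 161 / 1000 * t ^ 2 := by nlinarith
  have h8 : Real.log (Real.sin t) ≤ Real.log (t * (1 - 161 / 1000 * t ^ 2)) :=
    Real.log_le_log hs h6
  rw [Real.log_mul h0.ne' h7.ne'] at h8
  have h9 := Real.log_le_sub_one_of_pos h7
  rw [Real.log_mul (by norm_num) hs.ne']
  linarith

lemma bet_ge : 5814 / 10000 ≤ bet := by
  have hπ := Real.pi_pos
  have hπ1 := Real.pi_gt_d4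
  have hπ2 := Real.pi_lt_d4
  have hI : IntervalIntegrable (fun x => Real.log (2 * Real.sin x)) volume 0 (π / 4) := by
    have : IntervalIntegrable (fun x => Real.log 2 + Real.log (Real.sin x)) volume 0 (π / 4) :=
      (intervalIntegrable_const).add intervalIntegrable_log_sin
    refine this.congr ?_
    intro x hx
    rw [Set.uIoc_of_le (by linarith)] at hx
    have : 0 < Real.sin x := Real.sin_pos_of_pos_of_lt_pi hx.1 (by linarith [hx.2])
    simp only
    rw [Real.log_mul (by norm_num) this.ne']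
  have hJ1 : IntervalIntegrable (fun x => Real.log 2 + Real.log x) volume 0 (π / 4) :=
      (intervalIntegrable_const).add intervalIntegral.intervalIntegrable_log'
  have hJ2 : IntervalIntegrable (fun x : ℝ => 161 / 1000 * x ^ 2) volume 0 (π / 4) :=
    (by fun_prop : Continuous fun x : ℝ => 161 / 1000 * x ^ 2).intervalIntegrable _ _
  have h1 : ∫ t in (0:ℝ)..(π / 4), Real.log (2 * Real.sin t) ≤
      ∫ t in (0:ℝ)..(π / 4), (Real.log 2 + Real.log t - 161 / 1000 * t ^ 2) := by
    refine intervalIntegral.integral_mono_on_of_le_Ioo (by linarith) hI (hJ1.sub hJ2) ?_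
    intro t ht
    exact log_sin_le ht.1 ht.2.le
  rw [intervalIntegral.integral_sub hJ1 hJ2, intervalIntegral.integral_add
    intervalIntegrable_const intervalIntegral.intervalIntegrable_log',
    intervalIntegral.integral_const, integral_log, intervalIntegral.integral_const_mul,
    integral_pow] at h1
  norm_num at h1
  have h2 : Real.log (π / 4) ≤ -(2415 / 10000) := by
    rw [Real.log_le_iff_le_exp (by positivity)]
    have : (0.7854 : ℝ) ≤ Real.exp (-(2415 / 10000)) := by
      have h3 : Real.exp (2415 / 10000) ≤ 1 / 0.7854 := by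
        have := Real.exp_bound' (x := 2415 / 10000) (by norm_num) (by norm_num) (n := 6) (by norm_num)
        refine this.trans ?_
        simp only [Finset.sum_range_succ, Finset.sum_range_zero]
        norm_num [Nat.factorial]
      rw [Real.exp_neg, ← one_div]
      rw [le_div_iff₀ (Real.exp_pos _)]
      nlinarith [Real.exp_pos (2415 / 10000)]
    linarith
  have h4 := Real.log_two_lt_d9
  unfold bet
  have h5 : (5814 / 10000 : ℝ) = -(4 / π) * (-(5814 / 40000) * π) := by field_simp; norm_num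
  rw [h5]
  have h6 : (∫ t in (0:ℝ)..(π / 4), Real.log (2 * Real.sin t)) ≤ -(5814 / 40000) * π := by
    refine h1.trans ?_
    have h7 : π ^ 3 ≥ 31 := by
      have : (3.1415:ℝ) ^ 3 ≤ π ^ 3 := by gcongr
      norm_num at this
      linarith
    nlinarith
  have h8 : 0 ≤ 4 / π := by positivity
  have h9 := mul_le_mul_of_nonneg_left h6 h8
  linarith

lemma arsinh_one_bd : 88 / 100 ≤ Real.arsinh 1 ∧ Real.arsinh 1 ≤ 8825 / 10000 := by
  have hs1 : (1.4142 : ℝ) ≤ √2 := Real.le_sqrt_of_sq_le (by norm_num)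
  have hs2 : √2 ≤ (1.4143 : ℝ) := Real.sqrt_le_iff.2 ⟨by norm_num, by norm_num⟩
  have e : Real.arsinh 1 = Real.log (1 + √2) := by
    unfold Real.arsinh
    norm_num
  rw [e]
  constructor
  · rw [Real.le_log_iff_exp_le (by positivity)]
    have := Real.exp_bound' (x := 88 / 100) (by norm_num) (by norm_num) (n := 8) (by norm_num)
    refine this.trans ?_
    refine le_trans ?_ (add_le_add_right hs1 1)
    simp only [Finset.sum_range_succ, Finset.sum_range_zero]
    norm_num [Nat.factorial]
  · rw [Real.log_le_iff_le_exp (by positivity)]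
    have h := Real.sum_le_exp_of_nonneg (x := 8825 / 10000) (by norm_num) 8
    refine le_trans ?_ h
    refine (add_le_add_right hs2 1).trans ?_
    simp only [Finset.sum_range_succ, Finset.sum_range_zero]
    norm_num [Nat.factorial]

end Pool.Agent.Y761.CG
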