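import Pool.Agent.Y761.CG.Gh
import Pool.Agent.Y761.CG.Num

/-!
# Bounds of `s0`
-/

set_option autoImplicit false

namespace Pool.Agent.Y761.CG

open Pool.Agent.W711.HT Pool.Agent.Y472
open MeasureTheory
open scoped Real

/-- the real part of `s0` -/
noncomputable def g (ξ η : ℝ) : ℝ := (s0 (pt ξ η)).re

lemma g_zero (H : S_S0P) : g 0 0 = 2 * bet := by
  have h := H.2.2.1
  unfold g
  have : pt 0 0 = 0 := by simp [pt]
  rw [this, h, Complex.ofReal_re]

lemma deriv_v (H : S_S0P) {ξ : ℝ} (h0 : -(π / 2) < ξ) (h1 : ξ < π / 2) (t : ℝ) :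
    HasDerivAt (fun t => g ξ t) (2 / π * Qf ξ t) t := by
  have h := hasDerivAt_s0 H (a := fun _ => ξ) (b := fun t => t) (t := t) (hasDerivAt_const t ξ)
    (hasDerivAt_id t) h0 h1
  refine h.congr_deriv ?_
  ring

lemma deriv_h (H : S_S0P) {t : ℝ} (h0 : -(π / 2) < t) (h1 : t < π / 2) :
    HasDerivAt (fun t => g t 0) (-(2 / π * Pf t 0)) t := by
  have h := hasDerivAt_s0 H (a := fun t => t) (b := fun _ => (0 : ℝ)) (t := t) (hasDerivAt_id t)
    (hasDerivAt_const t 0) h0 h1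
  refine h.congr_deriv ?_
  ring

lemma Qf_nonneg {ξ η : ℝ} (hc : 0 < Real.cos ξ) (h : 0 ≤ η) : 0 ≤ Qf ξ η := by
  unfold Qf
  rw [Real.arctan_nonneg]
  exact div_nonneg (Real.sinh_nonneg_iff.2 h) hc.le

lemma Qf_le {ξ η : ℝ} (hc : 0 < Real.cos ξ) (h : Real.sinh η ≤ Real.cos ξ) : Qf ξ η ≤ π / 4 := by
  unfold Qf
  rw [← Real.arctan_one]
  refine Real.arctan_strictMono.monotone ?_
  rw [div_le_one hc]
  exact h

/-- monotone in `η` -/
lemma g_mono (H : S_S0P) {ξ η : ℝ} (h0 : -(π / 2) < ξ) (h1 : ξ < π / 2) (hη : 0 ≤ η) :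
    g ξ 0 ≤ g ξ η := by
  have hc : 0 < Real.cos ξ := Real.cos_pos_of_mem_Ioo ⟨h0, h1⟩
  have hm : MonotoneOn (fun t => g ξ t) (Set.Ici 0) := by
    refine monotoneOn_of_deriv_nonneg (convex_Ici 0)
      (fun x _ => (deriv_v H h0 h1 x).continuousAt.continuousWithinAt)
      (fun x _ => (deriv_v H h0 h1 x).differentiableAt.differentiableWithinAt) ?_
    intro x hx
    rw [interior_Ici] at hx
    rw [(deriv_v H h0 h1 x).deriv]
    have := Qf_nonneg hc (le_of_lt (Set.mem_Ioi.1 hx))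
    have := Real.pi_pos
    positivity
  exact hm (Set.mem_Ici.2 le_rfl) (Set.mem_Ici.2 hη) hη

/-- slope at most `1 / 2` -/
lemma g_slope (H : S_S0P) {ξ η η1 : ℝ} (h0 : -(π / 2) < ξ) (h1 : ξ < π / 2) (hη : η ≤ η1)
    (h2 : Real.sinh η1 ≤ Real.cos ξ) : g ξ η1 - g ξ η ≤ (η1 - η) / 2 := by
  have hc : 0 < Real.cos ξ := Real.cos_pos_of_mem_Ioo ⟨h0, h1⟩
  have hd : ∀ x, HasDerivAt (fun t => g ξ t - t / 2) (2 / π * Qf ξ x - 1 / 2) x := fun x =>
    (deriv_v H h0 h1 x).sub ((hasDerivAt_id x).div_const 2)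
  have hm : AntitoneOn (fun t => g ξ t - t / 2) (Set.Iic η1) := by
    refine antitoneOn_of_deriv_nonpos (convex_Iic η1)
      (fun x _ => (hd x).continuousAt.continuousWithinAt)
      (fun x _ => (hd x).differentiableAt.differentiableWithinAt) ?_
    intro x hx
    rw [interior_Iic] at hx
    rw [(hd x).deriv]
    have h3 : Real.sinh x ≤ Real.cos ξ :=
      (Real.sinh_le_sinh.2 (le_of_lt (Set.mem_Iio.1 hx))).trans h2
    have h4 := Qf_le hc h3
    have hπ := Real.pi_pos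
    have h5 : 2 / π * Qf ξ x ≤ 2 / π * (π / 4) := by gcongr
    have h6 : 2 / π * (π / 4) = 1 / 2 := by field_simp; norm_num
    linarith
  have := hm (Set.mem_Iic.2 hη) (Set.mem_Iic.2 le_rfl) hη
  simp only at this
  linarith

lemma arctan_sinh_ge {t : ℝ} (ht : 0 ≤ t) : t - t ^ 3 / 6 ≤ Real.arctan (Real.sinh t) := by
  have hd : ∀ x : ℝ, HasDerivAt (fun t : ℝ => Real.arctan (Real.sinh t) - (t - t ^ 3 / 6))
      (1 / Real.cosh x - (1 - x ^ 2 / 2)) x := by
    intro x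
    have h := ((Real.hasDerivAt_sinh x).arctan).sub
      ((hasDerivAt_id x).sub (((hasDerivAt_id x).pow 3).div_const 6))
    refine h.congr_deriv ?_
    have h1 : 1 + Real.sinh x ^ 2 = Real.cosh x ^ 2 := by rw [Real.cosh_sq]; ring
    have h2 : 0 < Real.cosh x := Real.cosh_pos x
    rw [h1]
    simp only [id]
    field_simp
    norm_num
    ring
  have hm : MonotoneOn (fun t : ℝ => Real.arctan (Real.sinh t) - (t - t ^ 3 / 6)) (Set.Ici 0) := by
    refine monotoneOn_of_deriv_nonneg (convex_Ici 0)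
      (fun x _ => (hd x).continuousAt.continuousWithinAt)
      (fun x _ => (hd x).differentiableAt.differentiableWithinAt) ?_
    intro x _
    rw [(hd x).deriv]
    have h1 := Real.cosh_le_exp_half_sq x
    have h2 : 0 < Real.cosh x := Real.cosh_pos x
    have h3 : 1 - x ^ 2 / 2 ≤ Real.exp (-(x ^ 2 / 2)) := by
      have := Real.add_one_le_exp (-(x ^ 2 / 2))
      linarith
    have h4 : Real.exp (-(x ^ 2 / 2)) ≤ 1 / Real.cosh x := by
      rw [Real.exp_neg, ← one_div]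
      exact one_div_le_one_div_of_le h2 h1
    linarith
  have h := hm (Set.mem_Ici.2 le_rfl) (Set.mem_Ici.2 ht) ht
  simp only [Real.sinh_zero, Real.arctan_zero] at h
  linarith

lemma g0_ge (H : S_S0P) {η : ℝ} (hη : 0 ≤ η) :
    2 * bet + 2 / π * (η ^ 2 / 2 - η ^ 4 / 24) ≤ g 0 η := by
  have hπ := Real.pi_pos
  have hd : ∀ x, HasDerivAt (fun t => g 0 t - 2 / π * (t ^ 2 / 2 - t ^ 4 / 24))
      (2 / π * Qf 0 x - 2 / π * (x - x ^ 3 / 6)) x := fun x => by
    have h := (deriv_v H (ξ := 0) (by linarith) (by linarith) x).sub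
      (((((hasDerivAt_id x).pow 2).div_const 2).sub
        (((hasDerivAt_id x).pow 4).div_const 24)).const_mul (2 / π))
    refine h.congr_deriv ?_
    simp only [id]
    norm_num
    ring
  have hm : MonotoneOn (fun t => g 0 t - 2 / π * (t ^ 2 / 2 - t ^ 4 / 24)) (Set.Ici 0) := by
    refine monotoneOn_of_deriv_nonneg (convex_Ici 0)
      (fun x _ => (hd x).continuousAt.continuousWithinAt)
      (fun x _ => (hd x).differentiableAt.differentiableWithinAt) ?_
    intro x hx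
    rw [interior_Ici] at hx
    rw [(hd x).deriv]
    have h1 := arctan_sinh_ge (le_of_lt (Set.mem_Ioi.1 hx))
    have h2 : Qf 0 x = Real.arctan (Real.sinh x) := by simp [Qf]
    rw [h2, ← mul_sub]
    exact mul_nonneg (by positivity) (by linarith)
  have h := hm (Set.mem_Ici.2 le_rfl) (Set.mem_Ici.2 hη) hη
  simp only [g_zero H] at h
  norm_num at h
  linarith

lemma Pf_le_tan {ξ : ℝ} (h0 : 0 ≤ ξ) (h1 : ξ < π / 2) :
    Pf ξ (Real.arsinh (Real.cos ξ)) ≤ 1 / √2 * Real.tan ξ := by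
  have hπ := Real.pi_pos
  have hc : 0 < Real.cos ξ := Real.cos_pos_of_mem_Ioo ⟨by linarith, h1⟩
  have hs : 0 ≤ Real.sin ξ := Real.sin_nonneg_of_nonneg_of_le_pi h0 (by linarith)
  have hsc := Real.sin_sq_add_cos_sq ξ
  unfold Pf
  rw [Real.cosh_arsinh]
  set s := Real.sin ξ with hsd
  set c := Real.cos ξ with hcd
  have hr : 0 < √(1 + c ^ 2) := by positivity
  have hr2 : √(1 + c ^ 2) ^ 2 = 1 + c ^ 2 := Real.sq_sqrt (by positivity)
  set r := √(1 + c ^ 2) with hrd
  have hx0 : 0 ≤ s / r := by positivity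
  have hx1 : s / r < 1 := by
    rw [div_lt_one hr]
    nlinarith
  have hx : s / r ∈ Set.Ioo (-1 : ℝ) 1 := ⟨by linarith, hx1⟩
  have h2 := Real.sinh_artanh hx
  have h3 : 0 ≤ Real.artanh (s / r) := Real.artanh_nonneg hx0
  have h4 : Real.artanh (s / r) ≤ Real.sinh (Real.artanh (s / r)) := Real.self_le_sinh_iff.2 h3
  refine h4.trans (le_of_eq ?_)
  rw [h2, Real.tan_eq_sin_div_cos, ← hsd, ← hcd]
  have e1 : 1 - (s / r) ^ 2 = 2 * (c / r) ^ 2 := by
    field_simp
    rw [hr2]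
    linarith
  rw [e1, Real.sqrt_mul (by norm_num), Real.sqrt_sq (by positivity)]
  field_simp

/-- the lower bound along the curve `sinh η = cos ξ` -/
lemma K_ge (H : S_S0P) {ξ : ℝ} (h0 : 0 ≤ ξ) (h1 : ξ ≤ π / 4) :
    317 / 200 ≤ 2 * g ξ (Real.arsinh (Real.cos ξ)) - Real.arsinh (Real.cos ξ) := by
  have hπ := Real.pi_pos
  have hπ1 := Real.pi_gt_d4
  have hπ2 := Real.pi_lt_d4
  have hd : ∀ x, 0 ≤ x → x ≤ π / 4 → HasDerivAt (fun t => 2 * g t (Real.arsinh (Real.cos t)) -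
      Real.arsinh (Real.cos t) - 4 / π * (1 / √2) * Real.log (Real.cos t))
      (4 / π * (1 / √2 * Real.tan x) - 4 / π * Pf x (Real.arsinh (Real.cos x))) x := by
    intro x hx0 hx1
    have hc : 0 < Real.cos x := Real.cos_pos_of_mem_Ioo ⟨by linarith, by linarith⟩
    have hb := (Real.hasDerivAt_cos x).arsinh
    have hg := hasDerivAt_s0 H (a := fun t => t) (b := fun t => Real.arsinh (Real.cos t))
      (hasDerivAt_id x) hb (by linarith : -(π / 2) < x) (by linarith : x < π / 2)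
    have hl := (Real.hasDerivAt_cos x).log hc.ne'
    have h := ((hg.const_mul 2).sub hb).sub (hl.const_mul (4 / π * (1 / √2)))
    refine h.congr_deriv ?_
    have hQ : Qf x (Real.arsinh (Real.cos x)) = π / 4 := by
      unfold Qf
      rw [Real.sinh_arsinh, div_self hc.ne', Real.arctan_one]
    rw [hQ, Real.tan_eq_sin_div_cos]
    field_simp
    ring
  have hm : MonotoneOn (fun t => 2 * g t (Real.arsinh (Real.cos t)) -
      Real.arsinh (Real.cos t) - 4 / π * (1 / √2) * Real.log (Real.cos t)) (Set.Icc 0 (π / 4)) := by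
    refine monotoneOn_of_deriv_nonneg (convex_Icc _ _)
      (fun x hx => (hd x hx.1 hx.2).continuousAt.continuousWithinAt)
      (fun x hx => ?_) ?_
    · rw [interior_Icc] at hx
      exact (hd x hx.1.le hx.2.le).differentiableAt.differentiableWithinAt
    · intro x hx
      rw [interior_Icc] at hx
      rw [(hd x hx.1.le hx.2.le).deriv, ← mul_sub]
      have := Pf_le_tan hx.1.le (by linarith [hx.2])
      exact mul_nonneg (by positivity) (by linarith)
  have h := hm (Set.mem_Icc.2 ⟨le_rfl, by linarith⟩) (Set.mem_Icc.2 ⟨h0, h1⟩) h0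
  simp only [Real.cos_zero, Real.log_one] at h
  obtain ⟨ha, hb⟩ := arsinh_one_bd
  have h2 := g0_ge H (η := Real.arsinh 1) (by linarith)
  set e := Real.arsinh 1 with he
  have hcos : 1 / √2 ≤ Real.cos ξ := by
    have h3 : Real.cos (π / 4) ≤ Real.cos ξ :=
      Real.cos_le_cos_of_nonneg_of_le_pi h0 (by linarith) h1
    rw [Real.cos_pi_div_four] at h3
    have h4 : √2 / 2 = 1 / √2 := by
      rw [div_eq_div_iff (by norm_num) (by positivity), Real.mul_self_sqrt (by norm_num)]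
      norm_num
    linarith
  have hlog : -(Real.log 2 / 2) ≤ Real.log (Real.cos ξ) := by
    have h3 := Real.log_le_log (by positivity) hcos
    rw [Real.log_div (by norm_num) (by positivity), Real.log_one,
      Real.log_sqrt (by norm_num)] at h3
    linarith
  have hl2 := Real.log_two_lt_d9
  have hs2 : 1 / √2 ≤ 0.70711 := by
    rw [div_le_iff₀ (by positivity)]
    have : (1.41421 : ℝ) ≤ √2 := Real.le_sqrt_of_sq_le (by norm_num)
    nlinarith
  have hs0 : 0 < 1 / √2 := by positivity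
  have hbet := bet_ge
  have h5 : 1.2732 ≤ 4 / π := by
    rw [le_div_iff₀ hπ]; nlinarith
  have h6 : 4 / π ≤ 1.27333 := by
    rw [div_le_iff₀ hπ]; nlinarith
  have h7 : 4 / π * (1 / √2) * (-Real.log (Real.cos ξ)) ≤ 0.3122 := by
    have h8 : 4 / π * (1 / √2) ≤ 1.27333 * 0.70711 := by gcongr
    have h9 : 4 / π * (1 / √2) * (-Real.log (Real.cos ξ)) ≤
        4 / π * (1 / √2) * (Real.log 2 / 2) := by
      have : -Real.log (Real.cos ξ) ≤ Real.log 2 / 2 := by linarith
      gcongr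
    have h10 : 4 / π * (1 / √2) * (Real.log 2 / 2) ≤ 1.27333 * 0.70711 * (0.6931471808 / 2) := by
      have : 0 ≤ Real.log 2 := Real.log_nonneg (by norm_num)
      gcongr
    have h11 : (1.27333 * 0.70711 * (0.6931471808 / 2) : ℝ) ≤ 0.3122 := by norm_num
    linarith
  have h11 : 0.3622 ≤ e ^ 2 / 2 - e ^ 4 / 24 := by
    have e2 : 0.7744 ≤ e ^ 2 := by nlinarith
    have e3 : e ^ 2 ≤ 0.77881 := by nlinarith
    have e4 : e ^ 4 = (e ^ 2) ^ 2 := by ring
    rw [e4]
    nlinarith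
  have h12 : 2 / π * 0.3622 ≤ 2 / π * (e ^ 2 / 2 - e ^ 4 / 24) := by gcongr
  have h13 : 2 / π = 4 / π / 2 := by ring
  rw [h13] at h12 h2
  linarith

lemma arsinh_tan_le {ξ : ℝ} (h0 : 0 ≤ ξ) (h1 : ξ ≤ π / 4) :
    Real.artanh (Real.sin ξ) ≤ 3 / 2 * ξ := by
  have hπ := Real.pi_pos
  have hcos : ∀ x, 0 ≤ x → x ≤ π / 4 → 2 / 3 ≤ Real.cos x := by
    intro x hx0 hx1
    have h3 : Real.cos (π / 4) ≤ Real.cos x :=
      Real.cos_le_cos_of_nonneg_of_le_pi hx0 (by linarith) hx1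
    rw [Real.cos_pi_div_four] at h3
    have : (1.41421 : ℝ) ≤ √2 := Real.le_sqrt_of_sq_le (by norm_num)
    linarith
  have hc := hcos ξ h0 h1
  have hs : 0 ≤ Real.sin ξ := Real.sin_nonneg_of_nonneg_of_le_pi h0 (by linarith)
  have hsc := Real.sin_sq_add_cos_sq ξ
  have hx : Real.sin ξ ∈ Set.Ioo (-1 : ℝ) 1 := ⟨by linarith, by nlinarith⟩
  have h2 : Real.artanh (Real.sin ξ) = Real.arsinh (Real.tan ξ) := by
    rw [← Real.sinh_inj, Real.sinh_arsinh, Real.sinh_artanh hx, Real.tan_eq_sin_div_cos]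
    have : 1 - Real.sin ξ ^ 2 = Real.cos ξ ^ 2 := by linarith
    rw [this, Real.sqrt_sq (by linarith)]
  rw [h2]
  have hd : ∀ x, 0 ≤ x → x ≤ π / 4 → HasDerivAt (fun t => 3 / 2 * t - Real.arsinh (Real.tan t))
      (3 / 2 - 1 / Real.cos x) x := by
    intro x hx0 hx1
    have hc := hcos x hx0 hx1
    have hc0 : 0 < Real.cos x := by linarith
    have ht := (Real.hasDerivAt_tan hc0.ne').arsinh
    have h := ((hasDerivAt_id x).const_mul (3 / 2)).sub ht
    refine h.congr_deriv ?_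
    have e : 1 + Real.tan x ^ 2 = (1 / Real.cos x) ^ 2 := by
      rw [Real.tan_eq_sin_div_cos]
      have := Real.sin_sq_add_cos_sq x
      field_simp
      linarith
    rw [e, Real.sqrt_sq (by positivity), smul_eq_mul]
    field_simp
  have hm : MonotoneOn (fun t => 3 / 2 * t - Real.arsinh (Real.tan t)) (Set.Icc 0 (π / 4)) := by
    refine monotoneOn_of_deriv_nonneg (convex_Icc _ _)
      (fun x hx => (hd x hx.1 hx.2).continuousAt.continuousWithinAt)
      (fun x hx => ?_) ?_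
    · rw [interior_Icc] at hx
      exact (hd x hx.1.le hx.2.le).differentiableAt.differentiableWithinAt
    · intro x hx
      rw [interior_Icc] at hx
      rw [(hd x hx.1.le hx.2.le).deriv]
      have hc := hcos x hx.1.le hx.2.le
      have : 1 / Real.cos x ≤ 3 / 2 := by
        rw [div_le_iff₀ (by linarith)]
        linarith
      linarith
  have h := hm (Set.mem_Icc.2 ⟨le_rfl, by linarith⟩) (Set.mem_Icc.2 ⟨h0, h1⟩) h0
  simp only [Real.tan_zero, Real.arsinh_zero] at h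
  linarith

lemma Pf_le {ξ η : ℝ} (h0 : 0 ≤ ξ) (h1 : ξ ≤ π / 4) : Pf ξ η ≤ 3 / 2 * ξ := by
  have hπ := Real.pi_pos
  refine le_trans ?_ (arsinh_tan_le h0 h1)
  unfold Pf
  have hC : 1 ≤ Real.cosh η := Real.one_le_cosh η
  have hc : 0 < Real.cos ξ := Real.cos_pos_of_mem_Ioo ⟨by linarith, by linarith⟩
  have hs : 0 ≤ Real.sin ξ := Real.sin_nonneg_of_nonneg_of_le_pi h0 (by linarith)
  have hsc := Real.sin_sq_add_cos_sq ξ
  have hs1 : Real.sin ξ < 1 := by nlinarith
  have h2 : Real.sin ξ / Real.cosh η ≤ Real.sin ξ := div_le_self hs hC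
  have h3 : 0 ≤ Real.sin ξ / Real.cosh η := by positivity
  exact Real.artanh_le_artanh (by linarith) hs1 h2

lemma Pf_nonneg {ξ η : ℝ} (h0 : 0 ≤ ξ) (h1 : ξ ≤ π / 4) : 0 ≤ Pf ξ η := by
  have hπ := Real.pi_pos
  have hs : 0 ≤ Real.sin ξ := Real.sin_nonneg_of_nonneg_of_le_pi h0 (by linarith)
  have hC : 1 ≤ Real.cosh η := Real.one_le_cosh η
  exact Real.artanh_nonneg (by positivity)

lemma g_ge (H : S_S0P) {ξ : ℝ} (h0 : 0 ≤ ξ) (h1 : ξ ≤ π / 4) :
    2 * bet - 3 / (2 * π) * ξ ^ 2 ≤ g ξ 0 := by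
  have hπ := Real.pi_pos
  have hd : ∀ x, 0 ≤ x → x ≤ π / 4 → HasDerivAt (fun t => g t 0 + 3 / (2 * π) * t ^ 2)
      (-(2 / π * Pf x 0) + 2 / π * (3 / 2 * x)) x := by
    intro x hx0 hx1
    have h := (deriv_h H (t := x) (by linarith) (by linarith)).add
      (((hasDerivAt_id x).pow 2).const_mul (3 / (2 * π)))
    refine h.congr_deriv ?_
    simp only [id]
    norm_num
    field_simp
  have hm : MonotoneOn (fun t => g t 0 + 3 / (2 * π) * t ^ 2) (Set.Icc 0 (π / 4)) := by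
    refine monotoneOn_of_deriv_nonneg (convex_Icc _ _)
      (fun x hx => (hd x hx.1 hx.2).continuousAt.continuousWithinAt)
      (fun x hx => ?_) ?_
    · rw [interior_Icc] at hx
      exact (hd x hx.1.le hx.2.le).differentiableAt.differentiableWithinAt
    · intro x hx
      rw [interior_Icc] at hx
      rw [(hd x hx.1.le hx.2.le).deriv]
      have h2 := Pf_le (η := 0) hx.1.le hx.2.le
      have h3 : 2 / π * Pf x 0 ≤ 2 / π * (3 / 2 * x) := by gcongr
      linarith
  have h := hm (Set.mem_Icc.2 ⟨le_rfl, by linarith⟩) (Set.mem_Icc.2 ⟨h0, h1⟩) h0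
  simp only [g_zero H] at h
  norm_num at h
  linarith

end Pool.Agent.Y761.CG
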