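import Pool.Agent.Y472.G.Defs

/-!
# Real and imaginary parts of `gh`, derivatives of `s0` along curves
-/

set_option autoImplicit false

namespace Pool.Agent.Y761.CG

open Pool.Agent.W711.HT Pool.Agent.Y472
open MeasureTheory
open scoped Real

/-- minus the real part of `gh` -/
noncomputable def Pf (ξ η : ℝ) : ℝ := Real.artanh (Real.sin ξ / Real.cosh η)

/-- the imaginary part of `gh` -/
noncomputable def Qf (ξ η : ℝ) : ℝ := Real.arctan (Real.sinh η / Real.cos ξ)

/-- the point -/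
noncomputable def pt (ξ η : ℝ) : ℂ := -2 * ξ + 2 * η * Complex.I

lemma pt_re (ξ η : ℝ) : (pt ξ η).re = -2 * ξ := by simp [pt]

lemma pt_im (ξ η : ℝ) : (pt ξ η).im = 2 * η := by simp [pt]

lemma gh_eq {ξ η : ℝ} (h0 : -(π / 2) < ξ) (h1 : ξ < π / 2) :
    gh (pt ξ η) = -(Pf ξ η) + Qf ξ η * Complex.I := by
  have hc : 0 < Real.cos ξ := Real.cos_pos_of_mem_Ioo ⟨h0, h1⟩
  have hC : 1 ≤ Real.cosh η := Real.one_le_cosh η
  have hsc := Real.sin_sq_add_cos_sq ξ
  have hCS := Real.cosh_sq η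
  set s := Real.sin ξ with hs
  set c := Real.cos ξ with hcdef
  set C := Real.cosh η with hCdef
  set S := Real.sinh η with hSdef
  have hs2 : s ^ 2 < 1 := by nlinarith
  have hs3 : -1 < s ∧ s < 1 := abs_lt.1 ((sq_lt_one_iff_abs_lt_one s).1 hs2)
  have hp : 0 < C + s := by linarith [hs3.1]
  have hq : 0 < C - s := by linarith [hs3.2]
  have hC0 : 0 < C := by linarith
  have hx : s / C ∈ Set.Ioo (-1 : ℝ) 1 := by
    constructor
    · rw [lt_div_iff₀ hC0]; linarith
    · rw [div_lt_iff₀ hC0]; linarith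
  have hE : Real.exp (-(Pf ξ η)) * (1 / √(1 + (S / c) ^ 2)) = c / (C + s) := by
    rw [Real.exp_neg]
    unfold Pf
    rw [← hs, ← hCdef, Real.exp_artanh hx, ← Real.sqrt_inv, one_div, ← Real.sqrt_inv,
      ← Real.sqrt_mul (by
        rw [inv_nonneg]
        exact div_nonneg (by linarith [hx.1]) (by linarith [hx.2]))]
    rw [Real.sqrt_eq_iff_mul_self_eq_of_pos (by positivity)]
    have e1 : 1 + s / C = (C + s) / C := by field_simp
    have e2 : 1 - s / C = (C - s) / C := by field_simp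
    have e3 : 1 + (S / c) ^ 2 = (C + s) * (C - s) / c ^ 2 := by
      field_simp
      nlinarith
    rw [e1, e2, e3]
    field_simp
  have hcos : Complex.cos (pt ξ η / 2) = c * C + s * S * Complex.I := by
    have : pt ξ η / 2 = ((-ξ : ℝ) : ℂ) + (η : ℂ) * Complex.I := by
      unfold pt; push_cast; ring
    rw [this, Complex.cos_add_mul_I, hs, hcdef, hCdef, hSdef]
    push_cast
    rw [Complex.cos_neg, Complex.sin_neg]
    ring
  have hsin : Complex.sin (pt ξ η / 2) = -(s * C) + c * S * Complex.I := by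
    have : pt ξ η / 2 = ((-ξ : ℝ) : ℂ) + (η : ℂ) * Complex.I := by
      unfold pt; push_cast; ring
    rw [this, Complex.sin_add_mul_I, hs, hcdef, hCdef, hSdef]
    push_cast
    rw [Complex.cos_neg, Complex.sin_neg]
    ring
  have hne : (c * C + s * S * Complex.I : ℂ) ≠ 0 := by
    intro h
    have := congrArg Complex.re h
    simp at this
    rcases this with h | h
    · exact hc.ne' h
    · exact hC0.ne' h
  have hexp : Complex.exp (-(Pf ξ η) + Qf ξ η * Complex.I) =
      (1 + Complex.sin (pt ξ η / 2)) / Complex.cos (pt ξ η / 2) := by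
    rw [Complex.exp_add, Complex.exp_mul_I, ← Complex.ofReal_cos, ← Complex.ofReal_sin]
    have h2 : Real.cos (Qf ξ η) = 1 / √(1 + (S / c) ^ 2) := Real.cos_arctan _
    have h3 : Real.sin (Qf ξ η) = S / c * (1 / √(1 + (S / c) ^ 2)) := by
      unfold Qf
      rw [Real.sin_arctan]
      ring
    have h4 : Complex.exp (-(Pf ξ η)) = ((Real.exp (-(Pf ξ η)) : ℝ) : ℂ) := by push_cast; rfl
    rw [h2, h3, h4, hcos, hsin, eq_div_iff hne]
    have h5 : (((Real.exp (-(Pf ξ η)) : ℝ) : ℂ) * (((1 / √(1 + (S / c) ^ 2) : ℝ) : ℂ) +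
        ((S / c * (1 / √(1 + (S / c) ^ 2)) : ℝ) : ℂ) * Complex.I)) =
        ((c / (C + s) : ℝ) : ℂ) * (1 + ((S / c : ℝ) : ℂ) * Complex.I) := by
      rw [← hE]; push_cast; ring
    rw [h5]
    have hcC : (c : ℂ) ≠ 0 := by exact_mod_cast hc.ne'
    have hpC : ((C : ℂ) + s) ≠ 0 := by exact_mod_cast hp.ne'
    have hsc' : (c : ℂ) ^ 2 = 1 - (s : ℂ) ^ 2 := by
      have : c ^ 2 = 1 - s ^ 2 := by linarith
      exact_mod_cast this
    have hCS' : (S : ℂ) ^ 2 = (C : ℂ) ^ 2 - 1 := by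
      have : S ^ 2 = C ^ 2 - 1 := by linarith
      exact_mod_cast this
    push_cast
    field_simp
    have hI : Complex.I ^ 2 = -1 := Complex.I_sq
    ring_nf
    rw [hI]
    linear_combination ((C : ℂ)) * hsc' - (s : ℂ) * hCS'
  unfold gh
  rw [← hexp]
  rw [Complex.log_exp]
  · have h : -(π / 2) < Qf ξ η := Real.neg_pi_div_two_lt_arctan (Real.sinh η / Real.cos ξ)
    have e : (-((Pf ξ η : ℝ) : ℂ) + (Qf ξ η : ℝ) * Complex.I).im = Qf ξ η := by simp
    rw [e]
    linarith [Real.pi_pos]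
  · have h : Qf ξ η < π / 2 := Real.arctan_lt_pi_div_two (Real.sinh η / Real.cos ξ)
    have e : (-((Pf ξ η : ℝ) : ℂ) + (Qf ξ η : ℝ) * Complex.I).im = Qf ξ η := by simp
    rw [e]
    linarith [Real.pi_pos]

/-- derivative of the real part of `s0` along a curve -/
lemma hasDerivAt_s0 (H : S_S0P) {a b : ℝ → ℝ} {a' b' t : ℝ} (ha : HasDerivAt a a' t)
    (hb : HasDerivAt b b' t) (h0 : -(π / 2) < a t) (h1 : a t < π / 2) :
    HasDerivAt (fun t => (s0 (pt (a t) (b t))).re)
      (2 / π * (Qf (a t) (b t) * b' - Pf (a t) (b t) * a')) t := by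
  have hre : |(pt (a t) (b t)).re| < π := by
    rw [pt_re, abs_lt]
    constructor <;> linarith
  have hs := (H.1 (pt (a t) (b t)) hre).1
  have hγ : HasDerivAt (fun t => pt (a t) (b t)) (-2 * a' + 2 * b' * Complex.I) t := by
    have h2 := (ha.ofReal_comp.const_mul (-2 : ℂ)).add
      ((hb.ofReal_comp.const_mul (2 : ℂ)).mul_const Complex.I)
    exact h2
  have h3 : HasDerivAt (fun t => s0 (pt (a t) (b t)))
      (-(1 / π) * gh (pt (a t) (b t)) * (-2 * a' + 2 * b' * Complex.I)) t := by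
    have := (hs.hasFDerivAt.restrictScalars ℝ).comp_hasDerivAt t hγ
    refine this.congr_deriv ?_
    simp
    ring
  have h4 := Complex.reCLM.hasFDerivAt.comp_hasDerivAt t h3
  refine h4.congr_deriv ?_
  rw [gh_eq h0 h1]
  simp only [Complex.reCLM_apply]
  have hπ : (π : ℂ) ≠ 0 := by exact_mod_cast Real.pi_pos.ne'
  have e : -(1 / (π : ℂ)) * (-((Pf (a t) (b t) : ℝ) : ℂ) + (Qf (a t) (b t) : ℝ) * Complex.I) *
      (-2 * (a' : ℂ) + 2 * (b' : ℂ) * Complex.I) =
      ((2 / π * (Qf (a t) (b t) * b' - Pf (a t) (b t) * a') : ℝ) : ℂ) +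
        ((2 / π * (Pf (a t) (b t) * b' + Qf (a t) (b t) * a') : ℝ) : ℂ) * Complex.I := by
    push_cast
    field_simp
    have hI : Complex.I ^ 2 = -1 := Complex.I_sq
    ring_nf
    rw [hI]
    ring
  rw [e]
  simp only [Complex.add_re, Complex.ofReal_re, Complex.re_ofReal_mul, Complex.I_re, mul_zero,
    add_zero]

end Pool.Agent.Y761.CG
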